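import Pool.Agent.MP_927be3_nt.W61.Main

namespace Pool.Agent.Results.MP_927be3_nt.AsymptoticFormula

open Pool.Agent.MP_927be3_nt.W61

theorem result (k s : ℕ) (hk : 5 ≤ k)
    (h : (k : ℝ) ^ 2 - 3 * k + 12 * Real.sqrt k ≤ s ∨
      ∃ j : ℕ, 1 ≤ j ∧ j < k ∧ 7 * k * (k + 1) + 6 ≤ 10 * s ∧
        2 * ((k : ℤ) - j) * (k * (k + 1) - s) < 3 * (s - min (2 ^ j) (j * (j + 1)))) :
    (∀ n : ℕ, Summable (fun q : ℕ => term k s n (q + 1))) ∧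
    (∃ c : ℝ, 0 < c ∧ ∀ n : ℕ, c ≤ (sing k s n).re) ∧
    Filter.Tendsto (fun n : ℕ => (R k s n : ℂ) / (((n : ℝ) ^ ((s : ℝ) / k - 1) : ℝ) : ℂ) -
      ((Real.Gamma (1 + 1 / (k : ℝ)) ^ s / Real.Gamma ((s : ℝ) / k) : ℝ) : ℂ) * sing k s n)
      Filter.atTop (nhds 0) := by
  obtain ⟨h1, h2, h3⟩ := rng_row k s hk h
  obtain ⟨A, -, hT⟩ := tail_row k s (by omega) (by omega)
  exact ⟨fun n => (hT n).1, low_row tail_row k s (by omega) h1 h2,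
    top_all k s (by omega) (by omega) h3⟩

end Pool.Agent.Results.MP_927be3_nt.AsymptoticFormula
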