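import Pool.Agent.MP_927be3_nt.Up.G

namespace Pool.Agent.Results.MP_927be3_nt.CubicCount

theorem result (d : ℕ) (h5 : 5 ≤ d) (h7 : d ≤ 7) (ε : ℝ) (hε : 0 < ε) : ∃ C : ℝ,
    ∀ (P : ℕ) (c : Fin d → ℤ) (n : ℤ), 1 ≤ P → (∀ i, c i ≠ 0) →
      (({m : Fin d → ℤ | (∀ i, |m i| ≤ P) ∧ ∑ i, c i * |m i| ^ 3 = n}.ncard : ℕ) : ℝ) ≤
        C * (P : ℝ) ^ ((17 * (d : ℝ) - 20) / 24 + ε) :=
  Pool.Agent.MP_927be3_nt.W.cube_main d (by omega) h7 ε hε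

end Pool.Agent.Results.MP_927be3_nt.CubicCount
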