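import Pool.Agent.MP_927be3_nt.Main

namespace Pool.Agent.Results.MP_927be3_nt.LowerBound

open Pool.Agent.MP_927be3_nt

theorem result (k d : ℕ) (hk : 3 ≤ k) (hd : 1 ≤ d) (h : Holds k d) :
    k + 2 ≤ d ∧ (∀ p : ℕ, p.Prime → p - 1 ∣ k → p ^ (padicValNat p k + 1) ≤ d) ∧
      (Even k → 2 ^ (padicValNat 2 k + 2) ≤ d) :=
  main hk hd h

end Pool.Agent.Results.MP_927be3_nt.LowerBound
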