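import Pool.Agent.MP_927be3_nt.Up.H

namespace Pool.Agent.Results.MP_927be3_nt.UpperAsymptotic

open Pool.Agent.MP_927be3_nt

theorem result (k d : ℕ) (hk : 5 ≤ k)
    (hd : (k : ℝ) ^ 2 - 3 * k + 12 * Real.sqrt k ≤ d) : Holds k d :=
  W.main3 k d hk hd

end Pool.Agent.Results.MP_927be3_nt.UpperAsymptotic
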